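import Mathlib

/-!
# The Comfort–Frolik preorder: definitions and basic facts
-/

set_option autoImplicit false

namespace Pool.Agent.R492.CF

open Set Topology Filter

/-- The space of all ultrafilters on `ω`, with its usual topology. -/
abbrev βω : Type := Ultrafilter ℕ

/-- `X` is `u`-compact: every `f : ω → X` has a `u`-limit in `X`. -/
def UCompact (u : βω) (X : Type) [TopologicalSpace X] : Prop :=
  ∀ f : ℕ → X, ∃ x, Tendsto f u (𝓝 x)

/-- `X` is discretely `u`-compact: every injection `f : ω → X` with discrete range has a `u`-limit. -/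
def DiscretelyUCompact (u : βω) (X : Type) [TopologicalSpace X] : Prop :=
  ∀ f : ℕ → X, Function.Injective f → DiscreteTopology (range f) → ∃ x, Tendsto f u (𝓝 x)

/-- The Comfort preorder. `T35Space` means Tychonoff. -/
def LeC (u v : βω) : Prop :=
  ∀ (X : Type) [TopologicalSpace X], T35Space X → UCompact v X → UCompact u X

/-- The Comfort–Frolik preorder. -/
def LeCF (u v : βω) : Prop :=
  ∀ (X : Type) [TopologicalSpace X], T35Space X → DiscretelyUCompact v X → DiscretelyUCompact u X

/-- The Rudin–Frolik preorder: `v` is the `u`-limit of an injection `ω → βω` with discrete range. -/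
def LeRF (u v : βω) : Prop :=
  ∃ f : ℕ → βω, Function.Injective f ∧ DiscreteTopology (range f) ∧ Tendsto f u (𝓝 v)

/-- `u` is principal. -/
def Principal (u : βω) : Prop := ∃ n, u = pure n

/-! ### Limits in `βω` -/

theorem mem_iff_of_tendsto {f : ℕ → βω} {v w : βω} (h : Tendsto f v (𝓝 w)) (S : Set ℕ) :
    S ∈ w ↔ {i | S ∈ f i} ∈ v := by
  constructor
  · intro hS
    exact h ((ultrafilter_isOpen_basic S).mem_nhds hS)
  · intro hS
    by_contra hc
    have h1 : Sᶜ ∈ w := Ultrafilter.compl_mem_iff_notMem.mpr hc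
    have h2 : {i | Sᶜ ∈ f i} ∈ v := h ((ultrafilter_isOpen_basic Sᶜ).mem_nhds h1)
    obtain ⟨i, hi1, hi2⟩ := v.nonempty_of_mem (inter_mem hS h2)
    exact (Ultrafilter.compl_mem_iff_notMem.mp hi2) hi1

theorem exists_limit (f : ℕ → βω) (v : βω) : ∃ w, Tendsto f v (𝓝 w) := by
  obtain ⟨w, -, hw⟩ := isCompact_iff_ultrafilter_le_nhds.mp (isCompact_univ (X := βω))
    (v.map f) (by simp)
  exact ⟨w, hw⟩

theorem tendsto_of_mem_iff {f : ℕ → βω} {v w : βω} (h : ∀ S, S ∈ w → {i | S ∈ f i} ∈ v) :
    Tendsto f v (𝓝 w) := by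
  obtain ⟨w', hw'⟩ := exists_limit f v
  have h1 : (w' : Filter ℕ) ≤ w := fun S hS => (mem_iff_of_tendsto hw' S).mpr (h S hS)
  have : w' = w := Ultrafilter.coe_le_coe.mp h1
  rw [← this]
  exact hw'

theorem limit_unique {f : ℕ → βω} {v w w' : βω} (h : Tendsto f v (𝓝 w)) (h' : Tendsto f v (𝓝 w')) :
    w = w' := tendsto_nhds_unique h h'

/-- Injectivity and discreteness of the range through separating sets. -/
theorem discrete_of_sep {f : ℕ → βω} (B : ℕ → Set ℕ) (h1 : ∀ i, B i ∈ f i)
    (h2 : ∀ i j, j ≠ i → B i ∉ f j) : Function.Injective f ∧ DiscreteTopology (range f) := by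
  have hinj : Function.Injective f := by
    intro i j hij
    by_contra hne
    exact h2 i j (Ne.symm hne) (hij ▸ h1 i)
  refine ⟨hinj, ?_⟩
  rw [discreteTopology_iff_isOpen_singleton]
  rintro ⟨_, ⟨i, rfl⟩⟩
  have h3 : IsOpen {w : βω | B i ∈ w} := ultrafilter_isOpen_basic _
  have h4 : ({⟨f i, ⟨i, rfl⟩⟩} : Set (range f)) = Subtype.val ⁻¹' {w : βω | B i ∈ w} := by
    ext ⟨_, ⟨j, rfl⟩⟩
    constructor
    · intro h
      have h5 : f j = f i := congrArg Subtype.val h
      change B i ∈ f j
      rw [h5]; exact h1 i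
    · intro h
      have h5 : B i ∈ f j := h
      have h6 : j = i := by
        by_contra hne
        exact h2 i j hne h5
      subst h6
      rfl
  rw [h4]
  exact h3.preimage continuous_subtype_val

theorem exists_sep {f : ℕ → βω} (hinj : Function.Injective f) (hd : DiscreteTopology (range f)) :
    ∃ B : ℕ → Set ℕ, (∀ i, B i ∈ f i) ∧ ∀ i j, j ≠ i → B i ∉ f j := by
  have h : ∀ i, ∃ B : Set ℕ, B ∈ f i ∧ ∀ j, j ≠ i → B ∉ f j := by
    intro i
    have h1 : IsOpen ({⟨f i, ⟨i, rfl⟩⟩} : Set (range f)) := isOpen_discrete _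
    obtain ⟨U, hU, hUi⟩ := isOpen_induced_iff.mp h1
    have hfU : f i ∈ U := by
      have : (⟨f i, ⟨i, rfl⟩⟩ : range f) ∈ (Subtype.val ⁻¹' U : Set (range f)) := by
        rw [hUi]; rfl
      exact this
    obtain ⟨_, ⟨B, rfl⟩, hB, hBU⟩ := ultrafilterBasis_is_basis.exists_subset_of_mem_open hfU hU
    refine ⟨B, hB, fun j hj hBj => ?_⟩
    have h2 : (⟨f j, ⟨j, rfl⟩⟩ : range f) ∈ (Subtype.val ⁻¹' U : Set (range f)) := hBU hBj
    rw [hUi] at h2
    exact hj (hinj (congrArg Subtype.val (show _ = _ from h2)))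
  choose B hB using h
  exact ⟨B, fun i => (hB i).1, fun i j hj => (hB i).2 j hj⟩

theorem exists_disjoint_sep {f : ℕ → βω} (hinj : Function.Injective f)
    (hd : DiscreteTopology (range f)) :
    ∃ p : ℕ → ℕ, ∀ i, {n | p n = i} ∈ f i := by
  classical
  obtain ⟨B, hB1, hB2⟩ := exists_sep hinj hd
  have hA : ∀ i, {n | n ∈ B i ∧ ∀ j < i, n ∉ B j} ∈ f i := by
    intro i
    have h1 : (⋂ j ∈ Finset.range i, (B j)ᶜ) ∈ f i := by
      rw [← Ultrafilter.mem_coe, Filter.biInter_finset_mem]
      intro j hj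
      exact Ultrafilter.compl_mem_iff_notMem.mpr (hB2 j i (Finset.mem_range.mp hj).ne')
    refine mem_of_superset (inter_mem (hB1 i) h1) ?_
    rintro n ⟨hn1, hn2⟩
    refine ⟨hn1, fun j hj => ?_⟩
    have := mem_iInter₂.mp hn2 j (Finset.mem_range.mpr hj)
    exact this
  refine ⟨fun n => if h : ∃ i, n ∈ B i then Nat.find h else 0, fun i => ?_⟩
  refine mem_of_superset (hA i) ?_
  rintro n ⟨hn1, hn2⟩
  have h : ∃ i, n ∈ B i := ⟨i, hn1⟩
  simp only [mem_ofPred_eq, dif_pos h]
  rw [Nat.find_eq_iff]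
  exact ⟨hn1, hn2⟩

/-- If `v` is the `u`-limit of a discrete sequence, then `u` is an image of `v`. -/
theorem map_of_leRF {f : ℕ → βω} {u v : βω} (h : Tendsto f u (𝓝 v)) (p : ℕ → ℕ)
    (hp : ∀ i, {n | p n = i} ∈ f i) : v.map p = u := by
  ext S
  rw [Ultrafilter.mem_map, mem_iff_of_tendsto h]
  have : {i | p ⁻¹' S ∈ f i} = S := by
    ext i
    constructor
    · intro hi
      obtain ⟨n, hn1, hn2⟩ := (f i).nonempty_of_mem (inter_mem hi (hp i))
      have : p n = i := hn2
      exact this ▸ hn1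
    · intro hi
      refine mem_of_superset (hp i) ?_
      intro n hn
      have : p n = i := hn
      change p n ∈ S
      rw [this]; exact hi
  rw [this]

/-! ### The fixed point lemma -/

theorem color_limit (D : Set ℕ) (h : ℕ → ℕ)
    (hc : ∀ N, ∃ c : ℕ → Bool, ∀ n < N, n ∈ D → c (h n) ≠ c n) :
    ∃ c : ℕ → Bool, ∀ n ∈ D, c (h n) ≠ c n := by
  classical
  choose c hc using hc
  let w : Ultrafilter ℕ := hyperfilter ℕ
  refine ⟨fun n => decide ({N | c N n = true} ∈ w), fun n hn heq => ?_⟩
  rw [decide_eq_decide] at heq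
  have hN : {N | n < N} ∈ w := by
    have : (hyperfilter ℕ : Filter ℕ) ≤ atTop := by
      rw [← Nat.cofinite_eq_atTop]; exact hyperfilter_le_cofinite
    exact this (Ioi_mem_atTop n)
  by_cases h1 : {N | c N n = true} ∈ w
  · have h2 := heq.mpr h1
    obtain ⟨N, hN1, hN2, hN3⟩ := w.nonempty_of_mem (inter_mem hN (inter_mem h1 h2))
    exact hc N n hN1 hn (hN3.trans hN2.symm)
  · have h2 : {N | c N (h n) = true} ∉ w := fun hh => h1 (heq.mp hh)
    have h1' := Ultrafilter.compl_mem_iff_notMem.mpr h1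
    have h2' := Ultrafilter.compl_mem_iff_notMem.mpr h2
    obtain ⟨N, hN1, hN2, hN3⟩ := w.nonempty_of_mem (inter_mem hN (inter_mem h1' h2'))
    simp only [mem_compl_iff, mem_ofPred_eq, Bool.not_eq_true] at hN2 hN3
    exact hc N n hN1 hn (hN3.trans hN2.symm)

theorem color_down (h : ℕ → ℕ) : ∃ c : ℕ → Bool, ∀ n ∈ {n | h n < n}, c (h n) ≠ c n := by
  classical
  apply color_limit
  intro N
  induction N with
  | zero => exact ⟨fun _ => false, fun n hn => absurd hn (Nat.not_lt_zero _)⟩
  | succ N ih =>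
    obtain ⟨c, hc⟩ := ih
    refine ⟨Function.update c N (!(c (h N))), fun n hn hD => ?_⟩
    rw [mem_ofPred_eq] at hD
    rcases Nat.lt_succ_iff_lt_or_eq.mp hn with h1 | h1
    · rw [Function.update_of_ne (by omega), Function.update_of_ne (by omega)]
      exact hc n h1 hD
    · subst h1
      rw [Function.update_of_ne (by omega), Function.update_self]
      simp

theorem color_up (h : ℕ → ℕ) : ∃ c : ℕ → Bool, ∀ n ∈ {n | n < h n}, c (h n) ≠ c n := by
  classical
  apply color_limit
  intro N
  have key : ∀ k, ∃ c : ℕ → Bool, ∀ n, N - k ≤ n → n < N → n < h n → c (h n) ≠ c n := by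
    intro k
    induction k with
    | zero => exact ⟨fun _ => false, fun n h1 h2 => by omega⟩
    | succ k ih =>
      obtain ⟨c, hc⟩ := ih
      by_cases hk : k < N
      · set m := N - (k + 1) with hm
        refine ⟨Function.update c m (!(c (h m))), fun n h1 h2 h3 => ?_⟩
        by_cases hnm : n = m
        · subst hnm
          rw [Function.update_of_ne (by omega), Function.update_self]
          simp
        · rw [Function.update_of_ne (by omega), Function.update_of_ne hnm]
          exact hc n (by omega) h2 h3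
      · exact ⟨c, fun n h1 h2 h3 => hc n (by omega) h2 h3⟩
  obtain ⟨c, hc⟩ := key N
  exact ⟨c, fun n hn hD => hc n (by omega) hn hD⟩

/-- Katětov's fixed point lemma: if `h` maps `u` to itself then `h` is the identity on a set in `u`. -/
theorem fixed_point (u : βω) (h : ℕ → ℕ) (hu : u.map h = u) : {n | h n = n} ∈ u := by
  classical
  have key : ∀ D : Set ℕ, (∃ c : ℕ → Bool, ∀ n ∈ D, c (h n) ≠ c n) → D ∉ u := by
    rintro D ⟨c, hc⟩ hD
    have h1 : ∀ S : Set ℕ, S ∈ u ↔ h ⁻¹' S ∈ u := by
      intro S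
      conv_lhs => rw [← hu]
      exact Ultrafilter.mem_map
    by_cases hP : {n | c n = true} ∈ u
    · have h2 := (h1 _).mp hP
      obtain ⟨n, hn1, hn2, hn3⟩ := u.nonempty_of_mem (inter_mem hD (inter_mem hP h2))
      have hn2' : c n = true := hn2
      have hn3' : c (h n) = true := hn3
      exact hc n hn1 (hn3'.trans hn2'.symm)
    · have hP' := Ultrafilter.compl_mem_iff_notMem.mpr hP
      have h2 := (h1 _).mp hP'
      obtain ⟨n, hn1, hn2, hn3⟩ := u.nonempty_of_mem (inter_mem hD (inter_mem hP' h2))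
      have hn2' : ¬ c n = true := hn2
      have hn3' : ¬ c (h n) = true := hn3
      simp only [Bool.not_eq_true] at hn2' hn3'
      exact hc n hn1 (hn3'.trans hn2'.symm)
  have h1 := key _ (color_down h)
  have h2 := key _ (color_up h)
  have h1' := Ultrafilter.compl_mem_iff_notMem.mpr h1
  have h2' := Ultrafilter.compl_mem_iff_notMem.mpr h2
  refine mem_of_superset (inter_mem h1' h2') ?_
  rintro n ⟨hn1, hn2⟩
  simp only [mem_compl_iff, mem_ofPred_eq, not_lt] at hn1 hn2 ⊢
  omega

/-! ### The least discretely `v`-closed subset of `βω` -/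

/-- `X_v`: the least set of ultrafilters containing the principal ones and closed under `v`-limits of
injections with discrete range. -/
inductive InX (v : βω) : βω → Prop
  | pure (n : ℕ) : InX v (pure n)
  | lim (f : ℕ → βω) (w : βω) : (∀ n, InX v (f n)) → Function.Injective f →
      DiscreteTopology (range f) → Tendsto f v (𝓝 w) → InX v w

theorem range_val_discrete {p : βω → Prop} (f : ℕ → {w : βω // p w})
    (hd : DiscreteTopology (range f)) : DiscreteTopology (range fun n => (f n).1) := by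
  have h1 : (range fun n => (f n).1) = Subtype.val '' range f := by
    rw [← range_comp]; rfl
  rw [h1]
  have h2 : IsDiscrete (range f) := ⟨hd⟩
  exact (h2.image IsEmbedding.subtypeVal.isInducing).to_subtype

theorem xv_discretely_compact (v : βω) : DiscretelyUCompact v {w : βω // InX v w} := by
  intro f hinj hd
  obtain ⟨w, hw⟩ := exists_limit (fun n => (f n).1) v
  have hwX : InX v w := InX.lim (fun n => (f n).1) w (fun n => (f n).2)
    (fun i j hij => hinj (Subtype.ext hij)) (range_val_discrete f hd) hw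
  exact ⟨⟨w, hwX⟩, tendsto_subtype_rng.mpr hw⟩

theorem pure_discrete : Function.Injective (fun n : ℕ => (pure n : βω)) ∧
    DiscreteTopology (range fun n : ℕ => (pure n : βω)) := by
  apply discrete_of_sep (fun i => {i})
  · intro i
    exact Ultrafilter.mem_pure.mpr rfl
  · intro i j hj h
    exact hj (Ultrafilter.mem_pure.mp h)

/-- (1) -/
theorem inX_of_leCF {u v : βω} (h : LeCF u v) : InX v u := by
  have h1 := h {w : βω // InX v w} inferInstance (xv_discretely_compact v)
    (fun n => ⟨pure n, InX.pure n⟩) (fun i j hij => pure_discrete.1 (congrArg Subtype.val hij)) (by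
      have h2 := pure_discrete.2
      rw [discreteTopology_iff_isOpen_singleton] at h2 ⊢
      rintro ⟨_, ⟨i, rfl⟩⟩
      have h3 : IsOpen {w : {w : βω // InX v w} | ({i} : Set ℕ) ∈ w.1} :=
        (ultrafilter_isOpen_basic {i}).preimage continuous_subtype_val
      have h4 : ({⟨⟨pure i, InX.pure i⟩, ⟨i, rfl⟩⟩} :
          Set (range fun n => (⟨pure n, InX.pure n⟩ : {w : βω // InX v w}))) =
          Subtype.val ⁻¹' {w : {w : βω // InX v w} | ({i} : Set ℕ) ∈ w.1} := by
        ext ⟨_, ⟨j, rfl⟩⟩
        constructor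
        · intro h
          have h5 : (pure j : βω) = pure i := congrArg (fun x => x.1.1) (show _ = _ from h)
          change ({i} : Set ℕ) ∈ (pure j : βω)
          rw [h5]
          exact Ultrafilter.mem_pure.mpr rfl
        · intro h
          have h5 : ({i} : Set ℕ) ∈ (pure j : βω) := h
          have h6 : j = i := Ultrafilter.mem_pure.mp h5
          subst h6
          rfl
      rw [h4]
      exact h3.preimage continuous_subtype_val)
  obtain ⟨⟨w, hw⟩, hlim⟩ := h1
  have h2 : Tendsto (fun n : ℕ => (pure n : βω)) u (𝓝 w) :=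
    (continuous_subtype_val.tendsto _).comp hlim
  have h3 : Tendsto (fun n : ℕ => (pure n : βω)) u (𝓝 u) := Ultrafilter.tendsto_pure_self u
  rw [limit_unique h3 h2]
  exact hw

theorem leRF_of_inX {u v : βω} (h : InX v u) : Principal u ∨ LeRF v u := by
  cases h with
  | pure n => exact Or.inl ⟨n, rfl⟩
  | lim f _ h1 h2 h3 h4 => exact Or.inr ⟨f, h2, h3, h4⟩

/-- (2) -/
theorem limit_of_inX {u v : βω} (h : InX v u) (X : Type) [TopologicalSpace X] (hX : T35Space X)
    (hv : UCompact v X) (f : ℕ → X) : ∃ x, Tendsto f u (𝓝 x) := by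
  induction h with
  | pure n => exact ⟨f n, by
      rw [show ((pure n : βω) : Filter ℕ) = pure n from rfl]
      exact tendsto_pure_nhds f n⟩
  | lim g w _ _ _ hgw ih =>
    choose x hx using ih
    obtain ⟨y, hy⟩ := hv x
    refine ⟨y, ?_⟩
    have hreg : RegularSpace X := inferInstance
    intro s hs
    obtain ⟨t, ht, htc, hts⟩ := exists_mem_nhds_isClosed_subset hs
    have h1 : {n | x n ∈ interior t} ∈ v := hy (isOpen_interior.mem_nhds (mem_interior_iff_mem_nhds.mpr ht))
    have h2 : {n | f ⁻¹' t ∈ g n} ∈ v := by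
      refine mem_of_superset h1 ?_
      intro n hn
      exact hx n (mem_interior_iff_mem_nhds.mp hn)
    have h3 : f ⁻¹' t ∈ w := (mem_iff_of_tendsto hgw _).mpr h2
    exact mem_of_superset h3 (preimage_mono hts)

theorem leC_of_leCF {u v : βω} (h : LeCF u v) : LeC u v :=
  fun X _ hX hv f => limit_of_inX (inX_of_leCF h) X hX hv f

theorem leC_map (v : βω) (q : ℕ → ℕ) : LeC (v.map q) v := by
  intro X _ _ hv f
  obtain ⟨x, hx⟩ := hv (f ∘ q)
  exact ⟨x, hx⟩

end Pool.Agent.R492.CF
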